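import Pool.Agent.Helper97.SZ.Goals

/-!
# Packet PER of project SZ (MP_126465_gt): periodic repetition of a diffeomorphism
-/

set_option autoImplicit false

open Set Filter Topology Metric
open scoped ContDiff

namespace Pool.Agent.Helper7.SZ

open Pool.Agent.Helper91.SY Pool.Agent.Helper97.SZ

section
variable {E : Type} [NormedAddCommGroup E] [NormedSpace ℝ E]

/-- the index of the period -/
noncomputable def idx (S : ℝ) (ℓ : E →L[ℝ] ℝ) (x : E) : ℤ := ⌊(ℓ x + S / 2) / (2 * S)⌋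

/-- the periodic repetition -/
noncomputable def rep (S : ℝ) (e : E) (ℓ : E →L[ℝ] ℝ) (G : E → E) (x : E) : E :=
  if idx S ℓ x < 0 then x
  else G (x - (2 * (idx S ℓ x : ℝ) * S) • e) + (2 * (idx S ℓ x : ℝ) * S) • e

theorem idx_eq (S : ℝ) (ℓ : E →L[ℝ] ℝ) (x : E) (hS : 2 ≤ S) (k : ℤ)
    (h1 : 2 * (k : ℝ) * S - S / 2 ≤ ℓ x) (h2 : ℓ x < 2 * (k : ℝ) * S + 3 * S / 2) :
    idx S ℓ x = k := by
  unfold idx
  rw [Int.floor_eq_iff]
  have h2S : (0 : ℝ) < 2 * S := by linarith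
  constructor
  · rw [le_div_iff₀ h2S]; nlinarith
  · rw [div_lt_iff₀ h2S]; nlinarith

theorem idx_bounds (S : ℝ) (ℓ : E →L[ℝ] ℝ) (x : E) (hS : 2 ≤ S) :
    2 * (idx S ℓ x : ℝ) * S - S / 2 ≤ ℓ x ∧ ℓ x < 2 * (idx S ℓ x : ℝ) * S + 3 * S / 2 := by
  have h2S : (0 : ℝ) < 2 * S := by linarith
  have h1 := Int.floor_le ((ℓ x + S / 2) / (2 * S))
  have h2 := Int.lt_floor_add_one ((ℓ x + S / 2) / (2 * S))
  rw [le_div_iff₀ h2S] at h1
  rw [div_lt_iff₀ h2S] at h2
  change (idx S ℓ x : ℝ) * (2 * S) ≤ _ at h1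
  change _ < ((idx S ℓ x : ℝ) + 1) * (2 * S) at h2
  constructor <;> nlinarith

theorem rep_neg (S : ℝ) (e : E) (ℓ : E →L[ℝ] ℝ) (G : E → E) (x : E) (h : idx S ℓ x < 0) :
    rep S e ℓ G x = x := by
  unfold rep
  rw [if_pos h]

theorem rep_nonneg (S : ℝ) (e : E) (ℓ : E →L[ℝ] ℝ) (G : E → E) (x : E) (h : 0 ≤ idx S ℓ x) :
    rep S e ℓ G x = G (x - (2 * (idx S ℓ x : ℝ) * S) • e) + (2 * (idx S ℓ x : ℝ) * S) • e := by
  unfold rep
  rw [if_neg (not_lt.mpr h)]

theorem l_sub (S : ℝ) (e : E) (ℓ : E →L[ℝ] ℝ) (he : ℓ e = 1) (x : E) (c : ℝ) :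
    ℓ (x - c • e) = ℓ x - c := by
  rw [map_sub, map_smul, he, smul_eq_mul, mul_one]

theorem l_add (S : ℝ) (e : E) (ℓ : E →L[ℝ] ℝ) (he : ℓ e = 1) (x : E) (c : ℝ) :
    ℓ (x + c • e) = ℓ x + c := by
  rw [map_add, map_smul, he, smul_eq_mul, mul_one]

/-- far from the centre of its period `rep` is the identity -/
theorem rep_id (S : ℝ) (e : E) (ℓ : E →L[ℝ] ℝ) (G : E → E) (he : ℓ e = 1)
    (hG : ∀ x, S - 1 ≤ |ℓ x - S / 2| → G x = x) (x : E)
    (h : S - 1 ≤ |ℓ x - 2 * (idx S ℓ x : ℝ) * S - S / 2|) :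
    rep S e ℓ G x = x := by
  rcases lt_or_ge (idx S ℓ x) 0 with h0 | h0
  · exact rep_neg S e ℓ G x h0
  · rw [rep_nonneg S e ℓ G x h0, hG _ (by rw [l_sub S e ℓ he]; exact h)]
    abel

theorem rep_slab (S : ℝ) (e : E) (ℓ : E →L[ℝ] ℝ) (G : E → E) (hS : 2 ≤ S) (he : ℓ e = 1)
    (hG : ∀ x, S - 1 ≤ |ℓ x - S / 2| → G x = x) (k : ℕ) (x : E)
    (h : |ℓ x - (2 * k * S + S / 2)| < S + 1) :
    rep S e ℓ G x = G (x - (2 * k * S) • e) + (2 * k * S) • e := by
  rw [abs_lt] at h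
  obtain ⟨h1, h2⟩ := h
  rcases lt_or_ge (ℓ x) (2 * (k : ℝ) * S - S / 2) with c1 | c1
  · -- below
    have hi : idx S ℓ x = (k : ℤ) - 1 := by
      apply idx_eq S ℓ x hS
      · push_cast; nlinarith
      · push_cast; nlinarith
    have e1 : rep S e ℓ G x = x := by
      apply rep_id S e ℓ G he hG
      rw [hi]; push_cast
      apply le_trans _ (le_abs_self _)
      nlinarith
    have e2 : G (x - (2 * (k : ℝ) * S) • e) = x - (2 * (k : ℝ) * S) • e := by
      apply hG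
      rw [l_sub S e ℓ he]
      apply le_trans _ (neg_le_abs _)
      linarith
    rw [e1, e2]; abel
  · rcases lt_or_ge (ℓ x) (2 * (k : ℝ) * S + 3 * S / 2) with c2 | c2
    · have hi : idx S ℓ x = (k : ℤ) := by
        apply idx_eq S ℓ x hS
        · push_cast; linarith
        · push_cast; linarith
      rw [rep_nonneg S e ℓ G x (by rw [hi]; exact Int.natCast_nonneg k), hi]
      simp
    · have hi : idx S ℓ x = (k : ℤ) + 1 := by
        apply idx_eq S ℓ x hS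
        · push_cast; nlinarith
        · push_cast; nlinarith
      have e1 : rep S e ℓ G x = x := by
        apply rep_id S e ℓ G he hG
        rw [hi]; push_cast
        apply le_trans _ (neg_le_abs _)
        nlinarith
      have e2 : G (x - (2 * (k : ℝ) * S) • e) = x - (2 * (k : ℝ) * S) • e := by
        apply hG
        rw [l_sub S e ℓ he]
        apply le_trans _ (le_abs_self _)
        linarith
      rw [e1, e2]; abel

theorem rep_left (S : ℝ) (e : E) (ℓ : E →L[ℝ] ℝ) (G : E → E) (hS : 2 ≤ S) (he : ℓ e = 1)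
    (hG : ∀ x, S - 1 ≤ |ℓ x - S / 2| → G x = x) (x : E) (h : ℓ x ≤ -(S / 2) + 1) :
    rep S e ℓ G x = x := by
  rcases lt_or_ge (idx S ℓ x) 0 with h0 | h0
  · exact rep_neg S e ℓ G x h0
  · obtain ⟨b1, b2⟩ := idx_bounds S ℓ x hS
    have h1 : idx S ℓ x ≤ 0 := by
      by_contra hc
      have : (1 : ℝ) ≤ (idx S ℓ x : ℝ) := by exact_mod_cast (by omega : (1 : ℤ) ≤ idx S ℓ x)
      nlinarith
    have h2 : idx S ℓ x = 0 := le_antisymm h1 h0
    apply rep_id S e ℓ G he hG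
    rw [h2]
    apply le_trans _ (neg_le_abs _)
    push_cast
    linarith

theorem rep_inv (S : ℝ) (e : E) (ℓ : E →L[ℝ] ℝ) (G H : E → E) (hS : 2 ≤ S) (he : ℓ e = 1)
    (hG : ∀ x, S - 1 ≤ |ℓ x - S / 2| → G x = x)
    (hG' : ∀ x, |ℓ x - S / 2| < S - 1 → |ℓ (G x) - S / 2| < S - 1)
    (hHG : ∀ x, H (G x) = x) (x : E) :
    rep S e ℓ H (rep S e ℓ G x) = x := by
  rcases lt_or_ge (idx S ℓ x) 0 with h0 | h0
  · rw [rep_neg S e ℓ G x h0, rep_neg S e ℓ H x h0]
  · set c : ℝ := 2 * (idx S ℓ x : ℝ) * S with hc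
    have e1 : rep S e ℓ G x = G (x - c • e) + c • e := rep_nonneg S e ℓ G x h0
    have hi : idx S ℓ (rep S e ℓ G x) = idx S ℓ x := by
      rcases lt_or_ge (|ℓ (x - c • e) - S / 2|) (S - 1) with h1 | h1
      · have h2 := hG' _ h1
        rw [abs_lt] at h2
        apply idx_eq S ℓ _ hS
        · rw [e1, l_add S e ℓ he, ← hc]; linarith [h2.1]
        · rw [e1, l_add S e ℓ he, ← hc]; linarith [h2.2]
      · rw [e1, hG _ h1, sub_add_cancel]
    rw [rep_nonneg S e ℓ H _ (by rw [hi]; exact h0), hi, ← hc, e1, add_sub_cancel_right, hHG,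
      sub_add_cancel]

theorem rep_smooth (S : ℝ) (e : E) (ℓ : E →L[ℝ] ℝ) (G : E → E) (hS : 2 ≤ S) (he : ℓ e = 1)
    (hG : ∀ x, S - 1 ≤ |ℓ x - S / 2| → G x = x) (hs : ContDiff ℝ ∞ G) :
    ContDiff ℝ ∞ (rep S e ℓ G) := by
  rw [contDiff_iff_contDiffAt]
  intro x0
  rcases lt_or_ge (ℓ x0) (-(S / 2) + 1) with h | h
  · have hev : rep S e ℓ G =ᶠ[𝓝 x0] fun x => x := by
      have ho : IsOpen {x : E | ℓ x < -(S / 2) + 1} := isOpen_lt ℓ.continuous continuous_const
      filter_upwards [ho.mem_nhds h] with x hx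
      exact rep_left S e ℓ G hS he hG x (le_of_lt hx)
    exact contDiffAt_id.congr_of_eventuallyEq hev
  · obtain ⟨b1, b2⟩ := idx_bounds S ℓ x0 hS
    have h0 : 0 ≤ idx S ℓ x0 := by
      by_contra hc
      have : (idx S ℓ x0 : ℝ) ≤ -1 := by exact_mod_cast (by omega : idx S ℓ x0 ≤ -1)
      nlinarith
    obtain ⟨k, hk⟩ := Int.eq_ofNat_of_zero_le h0
    rw [hk] at b1 b2
    push_cast at b1 b2
    have hev : rep S e ℓ G =ᶠ[𝓝 x0]
        fun x => G (x - (2 * (k : ℝ) * S) • e) + (2 * (k : ℝ) * S) • e := by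
      have ho : IsOpen {x : E | |ℓ x - (2 * (k : ℝ) * S + S / 2)| < S + 1} :=
        isOpen_lt (by fun_prop) continuous_const
      have hm : x0 ∈ {x : E | |ℓ x - (2 * (k : ℝ) * S + S / 2)| < S + 1} := by
        show |ℓ x0 - (2 * (k : ℝ) * S + S / 2)| < S + 1
        rw [abs_lt]
        constructor <;> linarith
      filter_upwards [ho.mem_nhds hm] with x hx
      exact rep_slab S e ℓ G hS he hG k x hx
    refine ContDiffAt.congr_of_eventuallyEq ?_ hev
    have : ContDiff ℝ ∞ fun x => G (x - (2 * (k : ℝ) * S) • e) + (2 * (k : ℝ) * S) • e :=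
      (hs.comp (contDiff_id.sub contDiff_const)).add contDiff_const
    exact this.contDiffAt

end

/-- PACKET PER -/
theorem per : StmtPER := by
  intro E _ _ S e ℓ F hS he hF hid
  have hin : ∀ x, |ℓ x - S / 2| < S - 1 → |ℓ (F x) - S / 2| < S - 1 := by
    intro x hx
    by_contra hc
    have h1 := hid (F x) (not_lt.mp hc)
    have h2 := F.injective h1
    rw [h2] at hc
    exact hc hx
  have hid' : ∀ x, S - 1 ≤ |ℓ x - S / 2| → F.symm x = x := by
    intro x hx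
    rw [Equiv.symm_apply_eq]
    exact (hid x hx).symm
  have hin' : ∀ x, |ℓ x - S / 2| < S - 1 → |ℓ (F.symm x) - S / 2| < S - 1 := by
    intro x hx
    by_contra hc
    have h1 := hid (F.symm x) (not_lt.mp hc)
    rw [Equiv.apply_symm_apply] at h1
    rw [← h1] at hc
    exact hc hx
  let Φ : E ≃ E :=
    { toFun := rep S e ℓ (fun x => F x)
      invFun := rep S e ℓ (fun x => F.symm x)
      left_inv := fun x => rep_inv S e ℓ (fun x => F x) (fun x => F.symm x) hS he hid hin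
        (fun x => F.symm_apply_apply x) x
      right_inv := fun x => rep_inv S e ℓ (fun x => F.symm x) (fun x => F x) hS he hid' hin'
        (fun x => F.apply_symm_apply x) x }
  refine ⟨Φ, ⟨?_, ?_⟩, ?_, ?_⟩
  · exact rep_smooth S e ℓ (fun x => F x) hS he hid hF.1
  · exact rep_smooth S e ℓ (fun x => F.symm x) hS he hid' hF.2
  · intro x hx
    exact rep_left S e ℓ (fun x => F x) hS he hid x hx
  · intro k x hx
    exact rep_slab S e ℓ (fun x => F x) hS he hid k x (by linarith)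

end Pool.Agent.Helper7.SZ
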